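import Mathlib

open Polynomial Finset

namespace Pool.Agent.Results.MP_96b1db_co.RationalWienerRoots

/-- The Wiener polynomial `W(G;x) = ∑_{u<v} x^{d(u,v)}` of a graph on `Fin n`
(every unordered pair of distinct vertices is listed exactly once). -/
noncomputable def wiener {n : ℕ} (G : SimpleGraph (Fin n)) : ℚ[X] :=
  ∑ u : Fin n, ∑ v ∈ Finset.Ioi u, X ^ G.dist u v

/-! ### Integer metrics that are graph metrics -/

structure GMetric {V : Type*} (d : V → V → ℕ) : Prop where
  self : ∀ u, d u u = 0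
  symm : ∀ u v, d u v = d v u
  lip : ∀ u v w, d v w = 1 → d u w ≤ d u v + 1
  geo : ∀ u v, u ≠ v → ∃ w, d w v = 1 ∧ d u w + 1 = d u v

def toGraph {V : Type*} (d : V → V → ℕ) (h : GMetric d) : SimpleGraph V where
  Adj u v := d u v = 1
  symm := ⟨fun u v huv => by rw [h.symm]; exact huv⟩
  loopless := ⟨fun u hu => by rw [h.self] at hu; exact absurd hu (by norm_num)⟩

lemma exists_walk {V : Type*} (d : V → V → ℕ) (h : GMetric d) :
    ∀ k : ℕ, ∀ u v : V, d u v = k → ∃ p : (toGraph d h).Walk u v, p.length = k := by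
  intro k
  induction k with
  | zero =>
    intro u v huv
    by_cases hne : u = v
    · subst hne; exact ⟨SimpleGraph.Walk.nil, rfl⟩
    · obtain ⟨w, _, h2⟩ := h.geo u v hne
      omega
  | succ k ih =>
    intro u v huv
    have hne : u ≠ v := by
      intro h0; subst h0; rw [h.self] at huv; omega
    obtain ⟨w, h1, h2⟩ := h.geo u v hne
    obtain ⟨p, hp⟩ := ih u w (by omega)
    refine ⟨p.concat (show (toGraph d h).Adj w v from h1), ?_⟩
    rw [SimpleGraph.Walk.length_concat, hp]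

lemma le_length {V : Type*} (d : V → V → ℕ) (h : GMetric d) {u v : V}
    (p : (toGraph d h).Walk u v) : d u v ≤ p.length := by
  induction p with
  | nil => rw [h.self]; exact Nat.zero_le _
  | @cons u w v huw q ih =>
    have h1 : d v u ≤ d v w + 1 := h.lip v w u (by
      have : d u w = 1 := huw
      rw [h.symm]; exact this)
    rw [SimpleGraph.Walk.length_cons, h.symm u v]
    rw [h.symm w v] at ih
    omega

lemma toGraph_preconnected {V : Type*} (d : V → V → ℕ) (h : GMetric d) :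
    (toGraph d h).Preconnected := by
  intro u v
  obtain ⟨p, _⟩ := exists_walk d h (d u v) u v rfl
  exact ⟨p⟩

lemma toGraph_dist {V : Type*} (d : V → V → ℕ) (h : GMetric d) (u v : V) :
    (toGraph d h).dist u v = d u v := by
  apply le_antisymm
  · obtain ⟨p, hp⟩ := exists_walk d h (d u v) u v rfl
    rw [← hp]; exact SimpleGraph.dist_le p
  · obtain ⟨p, hp⟩ := (toGraph_preconnected d h u v).exists_walk_length_eq_dist
    rw [← hp]; exact le_length d h p

lemma GMetric.comap {V W : Type*} (d : V → V → ℕ) (h : GMetric d) (e : W ≃ V) :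
    GMetric (fun i j => d (e i) (e j)) where
  self u := h.self _
  symm u v := h.symm _ _
  lip u v w := h.lip _ _ _
  geo u v huv := by
    obtain ⟨w, h1, h2⟩ := h.geo (e u) (e v) (by simpa using huv)
    exact ⟨e.symm w, by simpa using h1, by simpa using h2⟩

/-! ### The concrete metric -/

section Metric

variable {A C : Type*} [DecidableEq A] [DecidableEq C] (len : C → ℕ) (c0 : C)
  (S : Finset (A × A)) (T : Finset (A × C))

/-- distances inside the core -/
def dA (w w' : A) : ℕ := if w = w' then 0 else if (w, w') ∈ S ∨ (w', w) ∈ S then 2 else 1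

/-- distance from a core vertex to the `i`-th vertex of a chain -/
def dAC (w : A) (q : Σ c : C, Fin (len c)) : ℕ :=
  (q.2 : ℕ) + 1 + if (w, q.1) ∈ T then 1 else 0

/-- distances between chain vertices -/
def dC (q q' : Σ c : C, Fin (len c)) : ℕ :=
  ((q.2 : ℕ) - q'.2) + ((q'.2 : ℕ) - q.2) + if q.1 = q'.1 then 0 else 1

def dd : A ⊕ (Σ c : C, Fin (len c)) → A ⊕ (Σ c : C, Fin (len c)) → ℕ
  | Sum.inl w, Sum.inl w' => dA S w w'
  | Sum.inl w, Sum.inr q => dAC len T w q
  | Sum.inr q, Sum.inl w => dAC len T w q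
  | Sum.inr q, Sum.inr q' => dC len q q'

variable (hlen : ∀ c, 0 < len c) (hT : ∀ w, (w, c0) ∉ T)

include hlen hT

lemma dd_metric : GMetric (dd len S T) where
  self := by
    rintro (w | ⟨c, i⟩)
    · simp [dd, dA]
    · simp [dd, dC]
  symm := by
    rintro (w | ⟨c, i⟩) (w' | ⟨c', j⟩)
    · simp only [dd, dA, eq_comm (a := w), or_comm (a := (w, w') ∈ S)]
    · rfl
    · rfl
    · simp only [dd, dC, eq_comm (a := c)]; omega
  lip := by
    rintro (u | ⟨e, k⟩) (w | ⟨c, i⟩) (w' | ⟨c', j⟩) h1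
    · simp only [dd, dA] at h1 ⊢
      split_ifs at h1 ⊢ <;> simp_all
    · simp only [dd, dA, dAC] at h1 ⊢
      have hj : (j : ℕ) = 0 := by omega
      have hn : (w, c') ∉ T := by
        intro hmem; simp [hmem] at h1
      by_cases huw : u = w
      · subst huw; simp [hj, hn]
      · split_ifs <;> omega
    · simp only [dd, dA, dAC] at h1 ⊢
      split_ifs <;> omega
    · simp only [dd, dC, dAC] at h1 ⊢
      by_cases hcc : c = c'
      · subst hcc; split_ifs at h1 ⊢ <;> omega
      · simp only [hcc, if_false] at h1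
        split_ifs <;> omega
    · simp only [dd, dA, dAC] at h1 ⊢
      split_ifs <;> omega
    · simp only [dd, dAC, dC] at h1 ⊢
      have hj : (j : ℕ) = 0 := by omega
      have hn : (w, c') ∉ T := by
        intro hmem; simp [hmem] at h1
      by_cases hec : e = c'
      · subst hec; simp [hj, hn]; omega
      · split_ifs <;> omega
    · simp only [dd, dAC, dC] at h1 ⊢
      have hj : (i : ℕ) = 0 := by omega
      have hn : (w', c) ∉ T := by
        intro hmem; simp [hmem] at h1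
      by_cases hec : e = c
      · subst hec; simp [hj, hn]
      · split_ifs <;> omega
    · simp only [dd, dC] at h1 ⊢
      by_cases hcc : c = c'
      · subst hcc; split_ifs at h1 ⊢ <;> omega
      · simp only [hcc, if_false] at h1
        split_ifs <;> omega
  geo := by
    rintro (u | ⟨c, i⟩) (v | ⟨c', j⟩) hne
    · have huv : u ≠ v := fun h => hne (by rw [h])
      by_cases hS : (u, v) ∈ S ∨ (v, u) ∈ S
      · refine ⟨Sum.inr ⟨c0, ⟨0, hlen c0⟩⟩, ?_, ?_⟩
        · simp [dd, dAC, hT v]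
        · simp [dd, dAC, dA, hT u, huv, hS]
      · refine ⟨Sum.inl u, ?_, ?_⟩
        · simp [dd, dA, huv, hS]
        · simp [dd, dA, huv, hS]
    · by_cases hj : (j : ℕ) = 0
      · by_cases hTm : (u, c') ∈ T
        · have hc : c0 ≠ c' := by
            intro h; rw [← h] at hTm; exact hT u hTm
          refine ⟨Sum.inr ⟨c0, ⟨0, hlen c0⟩⟩, ?_, ?_⟩
          · simp [dd, dC, hc, hj]
          · simp [dd, dAC, hT u, hTm, hj]
        · refine ⟨Sum.inl u, ?_, ?_⟩
          · simp [dd, dAC, hTm, hj]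
          · simp [dd, dAC, dA, hTm, hj]
      · refine ⟨Sum.inr ⟨c', ⟨(j : ℕ) - 1, by omega⟩⟩, ?_, ?_⟩
        · simp only [dd, dC, if_true]; omega
        · simp only [dd, dAC]; omega
    · by_cases hTm : (v, c) ∈ T
      · have hc : c ≠ c0 := by
          intro h; rw [h] at hTm; exact hT v hTm
        refine ⟨Sum.inr ⟨c0, ⟨0, hlen c0⟩⟩, ?_, ?_⟩
        · simp [dd, dAC, hT v]
        · simp only [dd, dC, dAC, hTm, hc, if_true, if_false]; omega
      · refine ⟨Sum.inr ⟨c, ⟨0, hlen c⟩⟩, ?_, ?_⟩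
        · simp [dd, dAC, hTm]
        · simp only [dd, dC, dAC, hTm, if_true, if_false]; omega
    · by_cases hcc : c = c'
      · subst hcc
        have hij : (i : ℕ) ≠ j := by
          intro h; apply hne; congr; exact Fin.ext h
        rcases lt_or_gt_of_ne hij with h | h
        · refine ⟨Sum.inr ⟨c, ⟨(j : ℕ) - 1, by omega⟩⟩, ?_, ?_⟩
          · simp only [dd, dC, if_true]; omega
          · simp only [dd, dC, if_true]; omega
        · refine ⟨Sum.inr ⟨c, ⟨(j : ℕ) + 1, by omega⟩⟩, ?_, ?_⟩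
          · simp only [dd, dC, if_true]; omega
          · simp only [dd, dC, if_true]; omega
      · rcases le_or_gt (j : ℕ) i with h | h
        · refine ⟨Sum.inr ⟨c, ⟨(j : ℕ), by omega⟩⟩, ?_, ?_⟩
          · simp only [dd, dC, hcc, if_false]; omega
          · simp only [dd, dC, hcc, if_true, if_false]
        · refine ⟨Sum.inr ⟨c', ⟨(j : ℕ) - 1, by omega⟩⟩, ?_, ?_⟩
          · simp only [dd, dC, if_true]; omega
          · simp only [dd, dC, hcc, if_false]; omega

end Metric



/-! ### Sums over ordered and unordered pairs -/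

lemma sum_Iio_swap {n : ℕ} {R : Type*} [AddCommMonoid R] (f : Fin n → Fin n → R) :
    ∑ u, ∑ v ∈ Finset.Iio u, f u v = ∑ v, ∑ u ∈ Finset.Ioi v, f u v := by
  apply Finset.sum_comm'
  intro x y
  simp

lemma sum_sym {n : ℕ} {R : Type*} [CommRing R] (f : Fin n → Fin n → R)
    (hs : ∀ u v, f u v = f v u) :
    ∑ u, ∑ v, f u v = ∑ u, f u u + 2 * ∑ u, ∑ v ∈ Finset.Ioi u, f u v := by
  have h1 : ∀ u : Fin n, ∑ v, f u v
      = f u u + ∑ v ∈ Ioi u, f u v + ∑ v ∈ Iio u, f u v := by
    intro u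
    have h2 : ∀ v, f u v = (if v = u then f u v else 0) + (if u < v then f u v else 0)
        + (if v < u then f u v else 0) := by
      intro v
      rcases lt_trichotomy u v with h | h | h
      · simp [h, h.ne', h.not_gt]
      · simp [h]
      · simp [h, h.ne, h.not_gt]
    rw [Finset.sum_congr rfl (fun v _ => h2 v), Finset.sum_add_distrib, Finset.sum_add_distrib]
    congr 1
    · congr 1
      · simp
      · rw [← Finset.sum_filter]; congr 1; ext v; simp
    · rw [← Finset.sum_filter]; congr 1; ext v; simp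
  rw [Finset.sum_congr rfl (fun u _ => h1 u), Finset.sum_add_distrib, Finset.sum_add_distrib,
    sum_Iio_swap]
  have h3 : ∑ v, ∑ u ∈ Finset.Ioi v, f u v = ∑ u, ∑ v ∈ Finset.Ioi u, f u v :=
    Finset.sum_congr rfl (fun v _ => Finset.sum_congr rfl (fun u _ => hs u v))
  rw [h3]
  ring

/-- number of unordered pairs at distance `k` -/
def cnt {n : ℕ} (δ : Fin n → Fin n → ℕ) (k : ℕ) : ℕ :=
  ∑ u, ∑ v ∈ Finset.Ioi u, if δ u v = k then 1 else 0

lemma coeff_W {n : ℕ} (δ : Fin n → Fin n → ℕ) (k : ℕ) :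
    (∑ u, ∑ v ∈ Finset.Ioi u, (X : ℚ[X]) ^ δ u v).coeff k = (cnt δ k : ℚ) := by
  unfold cnt
  rw [Polynomial.finsetSum_coeff, Nat.cast_sum]
  refine Finset.sum_congr rfl (fun u _ => ?_)
  rw [Polynomial.finsetSum_coeff, Nat.cast_sum]
  refine Finset.sum_congr rfl (fun v _ => ?_)
  rw [Polynomial.coeff_X_pow]
  by_cases h : δ u v = k
  · simp [h]
  · have h' : ¬ k = δ u v := fun h0 => h h0.symm
    simp [h, h']

lemma cnt_le {n : ℕ} (δ : Fin n → Fin n → ℕ) (lv : Fin n → ℕ) (k : ℕ)
    (h : ∀ u v, δ u v = k → k ≤ lv u ∨ k ≤ lv v) :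
    cnt δ k ≤ (n - 1) * (∑ u, if k ≤ lv u then 1 else 0) := by
  unfold cnt
  have h1 : ∑ u, ∑ v ∈ Finset.Ioi u, (if δ u v = k then 1 else 0)
      ≤ ∑ u, ∑ v ∈ Finset.Ioi u, ((if k ≤ lv u then 1 else 0) + (if k ≤ lv v then 1 else 0)) := by
    refine Finset.sum_le_sum (fun u _ => Finset.sum_le_sum (fun v _ => ?_))
    by_cases hk : δ u v = k
    · rcases h u v hk with h2 | h2
      · simp [hk, h2]
      · simp [hk, h2]
    · simp [hk]
  refine h1.trans ?_
  have h2 : ∑ u : Fin n, ∑ v ∈ Finset.Ioi u,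
      ((if k ≤ lv u then 1 else 0) + (if k ≤ lv v then 1 else 0))
      = ∑ u : Fin n, ((Finset.Ioi u).card * (if k ≤ lv u then 1 else 0)
        + (Finset.Iio u).card * (if k ≤ lv u then 1 else 0)) := by
    simp only [Finset.sum_add_distrib]
    congr 1
    · simp [Finset.sum_const]
    · rw [← sum_Iio_swap (fun v _ => if k ≤ lv v then 1 else 0)]
      simp [Finset.sum_const]
  rw [h2, Finset.mul_sum]
  refine Finset.sum_le_sum (fun u _ => ?_)
  rw [← add_mul]
  apply Nat.mul_le_mul_right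
  rw [Fin.card_Ioi, Fin.card_Iio]
  have := u.isLt
  omega

/-! ### Changing the toggles -/

section Diff

variable {M : ℕ} {C : Type*} [Fintype C] [DecidableEq C] (len : C → ℕ)
  (S : Finset (Fin M × Fin M)) (T : Finset (Fin M × C))

lemma AA_diff (hS : ∀ p ∈ S, p.1 < p.2) :
    ∑ w : Fin M, ∑ w' : Fin M, (X : ℚ[X]) ^ dA S w w'
      = ∑ w : Fin M, ∑ w' : Fin M, (X : ℚ[X]) ^ dA ∅ w w'
        + 2 * ((S.card : ℚ[X]) * (X ^ 2 - X)) := by
  have h1 : ∀ w w' : Fin M, (X : ℚ[X]) ^ dA S w w' = X ^ dA ∅ w w'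
      + (if (w, w') ∈ S then X ^ 2 - X else 0) + (if (w', w) ∈ S then X ^ 2 - X else 0) := by
    intro w w'
    by_cases hw : w = w'
    · subst hw
      have : (w, w) ∉ S := fun h => lt_irrefl _ (hS _ h)
      simp [dA, this]
    · by_cases h2 : (w, w') ∈ S
      · have h3 : (w', w) ∉ S := fun h => lt_asymm (hS _ h) (hS _ h2)
        simp [dA, hw, h2, h3]
      · by_cases h3 : (w', w) ∈ S
        · simp [dA, hw, h2, h3]
        · simp [dA, hw, h2, h3]
  have h2 : ∑ w : Fin M, ∑ w' : Fin M, (if (w, w') ∈ S then (X : ℚ[X]) ^ 2 - X else 0)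
      = (S.card : ℚ[X]) * (X ^ 2 - X) := by
    rw [← Fintype.sum_prod_type' (f := fun w w' => if (w, w') ∈ S then (X : ℚ[X]) ^ 2 - X else 0)]
    simp only [Prod.mk.eta]
    rw [Finset.sum_ite_mem, Finset.univ_inter, Finset.sum_const, nsmul_eq_mul]
  have h3 : ∑ w : Fin M, ∑ w' : Fin M, (if (w', w) ∈ S then (X : ℚ[X]) ^ 2 - X else 0)
      = (S.card : ℚ[X]) * (X ^ 2 - X) := by
    rw [Finset.sum_comm]; exact h2
  simp only [h1, Finset.sum_add_distrib, h2, h3]
  ring

lemma AC_diff :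
    ∑ w : Fin M, ∑ q : (Σ c : C, Fin (len c)), (X : ℚ[X]) ^ dAC len T w q
      = ∑ w : Fin M, ∑ q : (Σ c : C, Fin (len c)), (X : ℚ[X]) ^ dAC len ∅ w q
        + ∑ p ∈ T, (X ^ (len p.2 + 1) - X) := by
  have h1 : ∀ (w : Fin M) (c : C), ∑ i : Fin (len c), (X : ℚ[X]) ^ dAC len T w ⟨c, i⟩
      = ∑ i : Fin (len c), (X : ℚ[X]) ^ dAC len ∅ w ⟨c, i⟩
        + (if (w, c) ∈ T then X ^ (len c + 1) - X else 0) := by
    intro w c
    by_cases h : (w, c) ∈ T
    · simp only [dAC, h, if_true, Finset.notMem_empty, if_false, add_zero]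
      rw [Fin.sum_univ_eq_sum_range (fun i => (X : ℚ[X]) ^ (i + 1 + 1)),
        Fin.sum_univ_eq_sum_range (fun i => (X : ℚ[X]) ^ (i + 1))]
      have h2 := Finset.sum_range_sub (fun i => (X : ℚ[X]) ^ (i + 1)) (len c)
      rw [Finset.sum_sub_distrib] at h2
      simp only [zero_add, pow_one] at h2
      rw [← h2]; ring
    · simp [dAC, h]
  have h2 : ∀ (w : Fin M) (T' : Finset (Fin M × C)),
      ∑ q : (Σ c : C, Fin (len c)), (X : ℚ[X]) ^ dAC len T' w q
      = ∑ c, ∑ i : Fin (len c), (X : ℚ[X]) ^ dAC len T' w ⟨c, i⟩ := by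
    intro w T'
    rw [Fintype.sum_sigma]
  simp only [h2, h1, Finset.sum_add_distrib]
  congr 1
  rw [← Fintype.sum_prod_type'
    (f := fun w c => if (w, c) ∈ T then (X : ℚ[X]) ^ (len c + 1) - X else 0)]
  simp only [Prod.mk.eta]
  rw [Finset.sum_ite_mem, Finset.univ_inter]

lemma G_diff (hS : ∀ p ∈ S, p.1 < p.2) :
    ∑ u, ∑ v, (X : ℚ[X]) ^ dd len S T u v
      = ∑ u, ∑ v, (X : ℚ[X]) ^ dd len (∅ : Finset (Fin M × Fin M)) ∅ u v
        + 2 * ((S.card : ℚ[X]) * (X ^ 2 - X) + ∑ p ∈ T, (X ^ (len p.2 + 1) - X)) := by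
  simp only [Fintype.sum_sum_type, Finset.sum_add_distrib, dd]
  rw [AA_diff S hS, AC_diff len T]
  rw [Finset.sum_comm (f := fun q w => (X : ℚ[X]) ^ dAC len T w q), AC_diff len T,
    Finset.sum_comm (f := fun q w => (X : ℚ[X]) ^ dAC len (∅ : Finset (Fin M × C)) w q)]
  ring

end Diff



lemma W_diff {M N : ℕ} {C : Type*} [Fintype C] [DecidableEq C] (len : C → ℕ) (c0 : C)
    (S : Finset (Fin M × Fin M)) (T : Finset (Fin M × C)) (hlen : ∀ c, 0 < len c)
    (hT : ∀ w, (w, c0) ∉ T) (hS : ∀ p ∈ S, p.1 < p.2)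
    (e : Fin N ≃ (Fin M ⊕ (Σ c : C, Fin (len c)))) :
    ∑ u, ∑ v ∈ Finset.Ioi u, (X : ℚ[X]) ^ dd len S T (e u) (e v)
      = ∑ u, ∑ v ∈ Finset.Ioi u,
          (X : ℚ[X]) ^ dd len (∅ : Finset (Fin M × Fin M)) ∅ (e u) (e v)
        + ((S.card : ℚ[X]) * (X ^ 2 - X) + ∑ p ∈ T, (X ^ (len p.2 + 1) - X)) := by
  have m1 := dd_metric len c0 S T hlen hT
  have m0 := dd_metric len c0 (∅ : Finset (Fin M × Fin M)) (∅ : Finset (Fin M × C)) hlen
    (fun w => by simp)
  have s1 := sum_sym (R := ℚ[X]) (fun u v : Fin N => (X : ℚ[X]) ^ dd len S T (e u) (e v))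
    (fun u v => by rw [m1.symm])
  have s0 := sum_sym (R := ℚ[X])
    (fun u v : Fin N => (X : ℚ[X]) ^ dd len (∅ : Finset (Fin M × Fin M)) ∅ (e u) (e v))
    (fun u v => by rw [m0.symm])
  have t1 : ∑ u : Fin N, ∑ v : Fin N, (X : ℚ[X]) ^ dd len S T (e u) (e v)
      = ∑ u, ∑ v, (X : ℚ[X]) ^ dd len S T u v := by
    rw [← Equiv.sum_comp e]
    refine Finset.sum_congr rfl (fun u _ => ?_)
    rw [← Equiv.sum_comp e]
  have t0 : ∑ u : Fin N, ∑ v : Fin N,
        (X : ℚ[X]) ^ dd len (∅ : Finset (Fin M × Fin M)) ∅ (e u) (e v)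
      = ∑ u, ∑ v, (X : ℚ[X]) ^ dd len (∅ : Finset (Fin M × Fin M)) ∅ u v := by
    rw [← Equiv.sum_comp e]
    refine Finset.sum_congr rfl (fun u _ => ?_)
    rw [← Equiv.sum_comp e]
  have g := G_diff len S T hS
  simp only [m1.self, m0.self] at s1 s0
  rw [t1] at s1
  rw [t0] at s0
  rw [s1, s0] at g
  have two : (2 : ℚ[X]) ≠ 0 := two_ne_zero
  apply mul_left_cancel₀ two
  linear_combination g

/-! ### Numerical estimates -/

lemma U_le (a B : ℕ) (h : B + 2 ≤ a) :
    ∀ j n : ℕ, (j + 1) + ∑ i ∈ Finset.range n, B * a ^ i * (j - i) ≤ a ^ j := by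
  intro j
  induction j with
  | zero => intro n; simp
  | succ j ih =>
    intro n
    have key : ∀ n', (j + 1 + 1) + ∑ i ∈ Finset.range (n' + 1), B * a ^ i * (j + 1 - i)
        ≤ a ^ (j + 1) := by
      intro n'
      rw [Finset.sum_range_succ']
      have h1 : ∑ i ∈ Finset.range n', B * a ^ (i + 1) * (j + 1 - (i + 1))
          = a * ∑ i ∈ Finset.range n', B * a ^ i * (j - i) := by
        rw [Finset.mul_sum]
        refine Finset.sum_congr rfl (fun i _ => ?_)
        rw [Nat.add_sub_add_right, pow_succ]; ring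
      rw [h1]
      have h2 := Nat.mul_le_mul_left a (ih n')
      rw [Nat.mul_add] at h2
      have h3 : (B + 2) * (j + 1) ≤ a * (j + 1) := Nat.mul_le_mul_right _ h
      have h4 : a ^ (j + 1) = a * a ^ j := by rw [pow_succ]; ring
      rw [h4]
      simp only [pow_zero, mul_one, Nat.sub_zero]
      nlinarith
    cases n with
    | zero =>
      have := key 0
      simp at this ⊢
      omega
    | succ n' => exact key n'

/-- number of chain vertices of level at least `k` -/
def Lam (m a B k : ℕ) : ℕ :=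
  ((m + 3) - (k - 1)) + ∑ l : Fin (m + 1), (B * a ^ (m - l)) * ((l + 2) - (k - 1))

lemma Lam_le (m a B k : ℕ) (h : B + 2 ≤ a) (hk : 1 ≤ k) (hk' : k ≤ m + 3) :
    Lam m a B k ≤ a ^ (m + 3 - k) := by
  unfold Lam
  rw [Fin.sum_univ_eq_sum_range (fun l => (B * a ^ (m - l)) * ((l + 2) - (k - 1))) (m + 1),
    ← Finset.sum_range_reflect]
  have h1 : ∑ j ∈ Finset.range (m + 1), B * a ^ (m - (m + 1 - 1 - j)) * (m + 1 - 1 - j + 2 - (k - 1))
      = ∑ i ∈ Finset.range (m + 1), B * a ^ i * ((m + 3 - k) - i) := by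
    refine Finset.sum_congr rfl (fun i hi => ?_)
    rw [Finset.mem_range] at hi
    have e1 : m - (m + 1 - 1 - i) = i := by omega
    have e2 : m + 1 - 1 - i + 2 - (k - 1) = (m + 3 - k) - i := by omega
    rw [e1, e2]
  rw [h1]
  have h2 := U_le a B h (m + 3 - k) (m + 1)
  have e3 : m + 3 - (k - 1) = m + 3 - k + 1 := by omega
  rw [e3]
  exact h2

lemma Lam_zero (m a B k : ℕ) (hk : m + 4 ≤ k) : Lam m a B k = 0 := by
  unfold Lam
  have h1 : (m + 3) - (k - 1) = 0 := by omega
  rw [h1, zero_add]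
  apply Finset.sum_eq_zero
  intro l _
  have : (l : ℕ) + 2 - (k - 1) = 0 := by have := l.isLt; omega
  rw [this, mul_zero]

lemma count_level (L k : ℕ) (hk : 1 ≤ k) :
    ∑ i ∈ Finset.range L, (if k ≤ i + 1 then 1 else 0) = L - (k - 1) := by
  induction L with
  | zero => simp
  | succ L ih =>
    rw [Finset.sum_range_succ, ih]
    split_ifs <;> omega



/-! ### Assembly -/

/-- index type of the chains: one spine and `r l` chains of length `l + 2` -/
abbrev Ch (m : ℕ) (r : Fin (m + 1) → ℕ) := Option (Σ l : Fin (m + 1), Fin (r l))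

def ln (m : ℕ) (r : Fin (m + 1) → ℕ) : Ch m r → ℕ
  | none => m + 3
  | some x => (x.1 : ℕ) + 2

lemma sum_ln (m : ℕ) (r : Fin (m + 1) → ℕ) (g : ℕ → ℕ) :
    ∑ c : Ch m r, g (ln m r c) = g (m + 3) + ∑ l : Fin (m + 1), r l * g (l + 2) := by
  rw [Fintype.sum_option, Fintype.sum_sigma]
  simp [ln]

/-- level of a vertex -/
def lev {A C : Type*} (len : C → ℕ) : A ⊕ (Σ c : C, Fin (len c)) → ℕ
  | Sum.inl _ => 0
  | Sum.inr q => (q.2 : ℕ) + 1

lemma lev_spec {A C : Type*} [DecidableEq A] [DecidableEq C] (len : C → ℕ) (k : ℕ) (hk : 2 ≤ k)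
    (u v : A ⊕ (Σ c : C, Fin (len c))) (h : dd len (∅ : Finset (A × A)) ∅ u v = k) :
    k ≤ lev len u ∨ k ≤ lev len v := by
  rcases u with w | ⟨c, i⟩ <;> rcases v with w' | ⟨c', j⟩
  · simp only [dd, dA, Finset.notMem_empty, or_self, if_false] at h
    split_ifs at h <;> omega
  · simp only [dd, dAC, Finset.notMem_empty, if_false, add_zero] at h
    right; simp only [lev]; omega
  · simp only [dd, dAC, Finset.notMem_empty, if_false, add_zero] at h
    left; simp only [lev]; omega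
  · simp only [dd, dC] at h
    simp only [lev]
    split_ifs at h <;> omega

lemma sum_lev (m : ℕ) (r : Fin (m + 1) → ℕ) (M k : ℕ) (hk : 1 ≤ k) :
    ∑ u : Fin M ⊕ (Σ c : Ch m r, Fin (ln m r c)), (if k ≤ lev (ln m r) u then 1 else 0)
      = (m + 3 - (k - 1)) + ∑ l : Fin (m + 1), r l * ((l + 2) - (k - 1)) := by
  rw [Fintype.sum_sum_type, Fintype.sum_sigma]
  have h1 : ∑ w : Fin M, (if k ≤ lev (ln m r) (Sum.inl w) then 1 else 0) = 0 := by
    apply Finset.sum_eq_zero
    intro w _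
    have h0 : ¬ k ≤ lev (A := Fin M) (ln m r) (Sum.inl w) := by simp only [lev]; omega
    rw [if_neg h0]
  rw [h1, zero_add]
  have h2 : ∀ c : Ch m r, ∑ i : Fin (ln m r c),
      (if k ≤ lev (A := Fin M) (ln m r) (Sum.inr ⟨c, i⟩) then 1 else 0) = ln m r c - (k - 1) := by
    intro c
    have h3 : ∀ i : Fin (ln m r c),
        (if k ≤ lev (A := Fin M) (ln m r) (Sum.inr ⟨c, i⟩) then 1 else 0)
          = (if k ≤ (i : ℕ) + 1 then 1 else 0) := fun i => rfl
    rw [Finset.sum_congr rfl (fun i _ => h3 i),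
      Fin.sum_univ_eq_sum_range (fun i => if k ≤ i + 1 then 1 else 0) (ln m r c)]
    exact count_level _ k hk
  simp only [h2]
  exact sum_ln m r (fun x => x - (k - 1))

theorem main (m : ℕ) : ∃ (n a : ℕ) (G : SimpleGraph (Fin n)), 2 ≤ n ∧ G.Connected ∧
    m + 3 ≤ G.diam ∧ wiener G = C ((n : ℚ) - 1) * X * (X + C (a : ℚ)) ^ (m + 2) := by
  -- parameters
  obtain ⟨B, hB⟩ : ∃ B, B = 2 ^ (m + 3) := ⟨_, rfl⟩
  obtain ⟨a, ha⟩ : ∃ a, a = 2 ^ (m + 5) := ⟨_, rfl⟩
  have hm : m + 3 < B := by rw [hB]; exact Nat.lt_two_pow_self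
  have haB : a = 4 * B := by rw [ha, hB, pow_succ, pow_succ]; ring
  have hBa : B + 2 ≤ a := by omega
  have h4 : 4 * (m + 2) ≤ a := by omega
  have ha1 : 1 ≤ a := by omega
  obtain ⟨Q, hQ⟩ : ∃ Q, Q = (a + 1) ^ (m + 2) := ⟨_, rfl⟩
  have hQa : a ^ (m + 2) + 1 ≤ Q := by
    rw [hQ]
    have : a ^ (m + 2) < (a + 1) ^ (m + 2) := Nat.pow_lt_pow_left (by omega) (by omega)
    omega
  obtain ⟨N, hN⟩ : ∃ N, N = 2 * Q := ⟨_, rfl⟩
  let r : Fin (m + 1) → ℕ := fun l => B * a ^ (m - l)
  let K : ℕ := ∑ c : Ch m r, ln m r c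
  have hK : K ≤ a ^ (m + 2) := by
    have h1 : K = Lam m a B 1 := by
      show ∑ c : Ch m r, ln m r c = _
      have := sum_ln m r (fun x => x)
      rw [this]; unfold Lam
      simp [r]
    rw [h1]
    exact Lam_le m a B 1 hBa le_rfl (by omega)
  obtain ⟨M, hM⟩ : ∃ M, M = N - K := ⟨_, rfl⟩
  have hMQ : Q ≤ M := by omega
  have hMN : M + K = N := by omega
  have hcard : Fintype.card (Fin M ⊕ (Σ c : Ch m r, Fin (ln m r c))) = N := by
    rw [Fintype.card_sum, Fintype.card_sigma]
    simp only [Fintype.card_fin]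
    exact hMN
  let e : Fin N ≃ (Fin M ⊕ (Σ c : Ch m r, Fin (ln m r c))) := (Fintype.equivFinOfCardEq hcard).symm
  have hlen : ∀ c : Ch m r, 0 < ln m r c := by
    rintro (_ | x)
    · show 0 < m + 3; omega
    · show 0 < (x.1 : ℕ) + 2; omega
  let δ0 : Fin N → Fin N → ℕ := fun u v =>
    dd (ln m r) (∅ : Finset (Fin M × Fin M)) ∅ (e u) (e v)
  -- bound on base counts
  have hbase : ∀ k, 2 ≤ k → cnt δ0 k ≤ (N - 1) * Lam m a B k := by
    intro k hk
    have h1 := cnt_le δ0 (fun u => lev (ln m r) (e u)) k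
      (fun u v huv => lev_spec (ln m r) k hk (e u) (e v) huv)
    have h2 : ∑ u : Fin N, (if k ≤ lev (ln m r) (e u) then 1 else 0) = Lam m a B k := by
      rw [Equiv.sum_comp e (fun u => if k ≤ lev (ln m r) u then 1 else 0),
        sum_lev m r M k (by omega)]
      rfl
    rw [h2] at h1
    exact h1
  obtain ⟨tgt, htgt⟩ : ∃ tgt : ℕ → ℕ, ∀ k, tgt k =
      (N - 1) * ((m + 2).choose (k - 1) * a ^ (m + 3 - k)) := ⟨_, fun _ => rfl⟩
  have hb : ∀ k, 2 ≤ k → k ≤ m + 3 → cnt δ0 k ≤ tgt k := by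
    intro k hk hk'
    refine (hbase k hk).trans ?_
    rw [htgt]
    apply Nat.mul_le_mul_left
    have h1 := Lam_le m a B k hBa (by omega) hk'
    have h2 : 0 < (m + 2).choose (k - 1) := Nat.choose_pos (by omega)
    calc Lam m a B k ≤ 1 * a ^ (m + 3 - k) := by simpa using h1
      _ ≤ _ := Nat.mul_le_mul_right _ h2
  have hb0 : ∀ k, m + 4 ≤ k → cnt δ0 k = 0 := by
    intro k hk
    have h1 := hbase k (by omega)
    rw [Lam_zero m a B k hk, mul_zero] at h1
    omega
  -- the set S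
  have hPM : 2 * (Finset.univ.filter (fun p : Fin M × Fin M => p.1 < p.2)).card + M = M * M := by
    have h1 := sum_sym (R := ℤ) (n := M) (fun _ _ => 1) (fun _ _ => rfl)
    simp only [Finset.sum_const, Finset.card_univ, Fintype.card_fin, smul_eq_mul, mul_one,
      nsmul_eq_mul] at h1
    have h2 : (Finset.univ.filter (fun p : Fin M × Fin M => p.1 < p.2)).card
        = ∑ u : Fin M, (Finset.Ioi u).card := by
      rw [Finset.card_filter, Fintype.sum_prod_type]
      refine Finset.sum_congr rfl (fun u _ => ?_)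
      rw [← Finset.card_filter]
      congr 1; ext v; simp
    rw [h2]
    have h3 : ((M * M : ℕ) : ℤ) = ((2 * ∑ u : Fin M, (Finset.Ioi u).card + M : ℕ) : ℤ) := by
      push_cast
      linarith
    exact_mod_cast h3.symm
  have hE2 : tgt 2 - cnt δ0 2 ≤ (Finset.univ.filter (fun p : Fin M × Fin M => p.1 < p.2)).card := by
    refine (Nat.sub_le _ _).trans ?_
    rw [htgt]
    have e1 : (m + 2).choose (2 - 1) = m + 2 := by simp
    have e2 : m + 3 - 2 = m + 1 := by omega
    rw [e1, e2]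
    have h1 : 4 * ((m + 2) * a ^ (m + 1)) ≤ Q - 1 := by
      have : 4 * ((m + 2) * a ^ (m + 1)) ≤ a * a ^ (m + 1) := by
        rw [← mul_assoc]; exact Nat.mul_le_mul_right _ h4
      have h5 : a ^ (m + 2) = a * a ^ (m + 1) := by rw [pow_succ]; ring
      omega
    have h2 : 4 * ((N - 1) * ((m + 2) * a ^ (m + 1))) ≤ 2 * (Q * (Q - 1)) := by
      calc 4 * ((N - 1) * ((m + 2) * a ^ (m + 1)))
          = (N - 1) * (4 * ((m + 2) * a ^ (m + 1))) := by ring
        _ ≤ (2 * Q) * (Q - 1) := Nat.mul_le_mul (by omega) h1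
        _ = 2 * (Q * (Q - 1)) := by ring
    have h3 : Q * (Q - 1) ≤ M * (M - 1) := Nat.mul_le_mul hMQ (by omega)
    have h5 : M * (M - 1) + M = M * M := by
      cases M with
      | zero => simp
      | succ M' => simp; ring
    omega
  obtain ⟨S, hSsub, hScard⟩ := Finset.exists_subset_card_eq hE2
  have hS : ∀ p ∈ S, p.1 < p.2 := fun p hp => by
    have := hSsub hp
    simpa using this
  -- the sets for the chains
  let E : ℕ → ℕ := fun k => if 3 ≤ k ∧ k ≤ m + 3 then tgt k - cnt δ0 k else 0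
  let P : ℕ → Finset (Fin M × Ch m r) := fun k =>
    Finset.univ.filter (fun p => p.2 ≠ none ∧ ln m r p.2 + 1 = k)
  have hEP : ∀ k, E k ≤ (P k).card := by
    intro k
    by_cases hk : 3 ≤ k ∧ k ≤ m + 3
    · have hEk : E k = tgt k - cnt δ0 k := if_pos hk
      rw [hEk]
      refine (Nat.sub_le _ _).trans ?_
      have hl : k - 3 < m + 1 := by omega
      have h1 : M * r ⟨k - 3, hl⟩ ≤ (P k).card := by
        have h2 : (Finset.univ : Finset (Fin M × Fin (r ⟨k - 3, hl⟩))).card = M * r ⟨k - 3, hl⟩ := by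
          simp
        rw [← h2]
        apply Finset.card_le_card_of_injOn
          (fun q => (q.1, (some ⟨⟨k - 3, hl⟩, q.2⟩ : Ch m r)))
        · intro q _
          refine Finset.mem_coe.mpr (Finset.mem_filter.mpr ⟨Finset.mem_univ _, by simp, ?_⟩)
          show (k - 3) + 2 + 1 = k
          omega
        · rintro ⟨q1, q2⟩ _ ⟨q3, q4⟩ _ hq
          simp at hq
          ext <;> simp [hq.1, hq.2]
      refine le_trans ?_ h1
      rw [htgt]
      have h3 : r ⟨k - 3, hl⟩ = B * a ^ (m + 3 - k) := by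
        show B * a ^ (m - (k - 3)) = _
        congr 2; omega
      rw [h3]
      have h5 : (m + 2).choose (k - 1) ≤ 2 ^ (m + 2) := Nat.choose_le_two_pow _ _
      have h6 : B = 2 * 2 ^ (m + 2) := by rw [hB, pow_succ]; ring
      calc (N - 1) * ((m + 2).choose (k - 1) * a ^ (m + 3 - k))
          ≤ (2 * Q) * (2 ^ (m + 2) * a ^ (m + 3 - k)) :=
            Nat.mul_le_mul (by omega) (Nat.mul_le_mul_right _ h5)
        _ = Q * (B * a ^ (m + 3 - k)) := by rw [h6]; ring
        _ ≤ M * (B * a ^ (m + 3 - k)) := Nat.mul_le_mul_right _ hMQ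
    · have hEk : E k = 0 := if_neg hk
      rw [hEk]; exact Nat.zero_le _
  have hex : ∀ k, ∃ F : Finset (Fin M × Ch m r), F ⊆ P k ∧ F.card = E k :=
    fun k => Finset.exists_subset_card_eq (hEP k)
  choose f hf1 hf2 using hex
  let T : Finset (Fin M × Ch m r) := Finset.univ.filter (fun p => p ∈ f (ln m r p.2 + 1))
  have hTf : ∀ k, T.filter (fun p => ln m r p.2 + 1 = k) = f k := by
    intro k
    ext p
    simp only [T, Finset.mem_filter, Finset.mem_univ, true_and]
    constructor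
    · rintro ⟨h1, h2⟩; rw [← h2]; exact h1
    · intro h1
      have h2 := hf1 k h1
      simp only [P, Finset.mem_filter, Finset.mem_univ, true_and] at h2
      exact ⟨by rw [h2.2]; exact h1, h2.2⟩
  have hT : ∀ w, (w, (none : Ch m r)) ∉ T := by
    intro w hw
    simp only [T, Finset.mem_filter, Finset.mem_univ, true_and] at hw
    have h2 := hf1 _ hw
    simp [P] at h2
  -- the graph
  have hmet := (dd_metric (ln m r) none S T hlen hT).comap _ e
  let δ : Fin N → Fin N → ℕ := fun u v => dd (ln m r) S T (e u) (e v)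
  let G : SimpleGraph (Fin N) := toGraph δ hmet
  have hdist : ∀ u v, G.dist u v = δ u v := fun u v => toGraph_dist δ hmet u v
  have hNpos : 0 < N := by omega
  have : Nonempty (Fin N) := ⟨⟨0, hNpos⟩⟩
  have hconn : G.Connected := ⟨toGraph_preconnected δ hmet⟩
  have hM0 : 0 < M := by omega
  refine ⟨N, a, G, by omega, hconn, ?_, ?_⟩
  · have hne : G.ediam ≠ ⊤ := SimpleGraph.connected_iff_ediam_ne_top.mp hconn
    let u : Fin N := e.symm (Sum.inl ⟨0, hM0⟩)
    let v : Fin N := e.symm (Sum.inr ⟨none, ⟨m + 2, by show m + 2 < m + 3; omega⟩⟩)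
    have h1 : G.dist u v = m + 3 := by
      rw [hdist]
      simp [δ, u, v, dd, dAC, hT]
    rw [← h1]
    exact SimpleGraph.dist_le_diam hne
  · -- the polynomial
    have hW : wiener G = ∑ u, ∑ v ∈ Finset.Ioi u, (X : ℚ[X]) ^ δ u v := by
      unfold wiener
      simp only [hdist]
    have hWd := W_diff (ln m r) none S T hlen hT hS e
    set W0 : ℚ[X] := ∑ u, ∑ v ∈ Finset.Ioi u, (X : ℚ[X]) ^ δ0 u v with hW0
    have hW1 : wiener G = W0 + ((S.card : ℚ[X]) * (X ^ 2 - X)
        + ∑ p ∈ T, (X ^ (ln m r p.2 + 1) - X)) := by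
      rw [hW]; exact hWd
    -- coefficients
    have hcoef : ∀ k, 2 ≤ k → (wiener G).coeff k
        = (cnt δ0 k : ℚ) + (if k = 2 then (S.card : ℚ) else 0) + (E k : ℚ) := by
      intro k hk
      rw [hW1, Polynomial.coeff_add, Polynomial.coeff_add, hW0, coeff_W, add_assoc]
      congr 2
      · rw [← Polynomial.C_eq_natCast, Polynomial.coeff_C_mul, Polynomial.coeff_sub,
          Polynomial.coeff_X_pow, Polynomial.coeff_X, if_neg (by omega : ¬ 1 = k)]
        split_ifs <;> simp
      · rw [Polynomial.finsetSum_coeff, ← hf2 k, ← hTf k, Finset.card_filter, Nat.cast_sum]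
        refine Finset.sum_congr rfl (fun p _ => ?_)
        rw [Polynomial.coeff_sub, Polynomial.coeff_X_pow, Polynomial.coeff_X,
          if_neg (by omega : ¬ 1 = k)]
        by_cases h : k = ln m r p.2 + 1
        · simp [h]
        · have h' : ¬ ln m r p.2 + 1 = k := fun h0 => h h0.symm
          simp [h, h']
    have hcoef2 : ∀ k, 2 ≤ k → (wiener G).coeff k
        = ((N : ℚ) - 1) * ((m + 2).choose (k - 1) * (a : ℚ) ^ (m + 3 - k)) := by
      intro k hk
      rw [hcoef k hk]
      have hN1 : ((N : ℚ) - 1) = ((N - 1 : ℕ) : ℚ) := by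
        rw [Nat.cast_sub (by omega)]; simp
      by_cases hk3 : k ≤ m + 3
      · have ht : (tgt k : ℚ) = ((N : ℚ) - 1) * ((m + 2).choose (k - 1) * (a : ℚ) ^ (m + 3 - k)) := by
          rw [htgt, hN1]; push_cast; ring
        rw [← ht]
        rcases eq_or_ne k 2 with h2 | h2
        · subst h2
          have hE : E 2 = 0 := if_neg (by omega)
          rw [hE, if_pos rfl, hScard]
          rw [Nat.cast_sub (hb 2 le_rfl hk3)]
          push_cast; ring
        · have hE : E k = tgt k - cnt δ0 k := if_pos ⟨by omega, hk3⟩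
          rw [hE, if_neg h2, Nat.cast_sub (hb k hk hk3)]
          ring
      · have hE : E k = 0 := if_neg (by omega)
        rw [hE, if_neg (by omega), hb0 k (by omega), Nat.choose_eq_zero_of_lt (by omega)]
        simp
    have hcoef0 : (wiener G).coeff 0 = 0 := by
      rw [hW, coeff_W]
      have : cnt δ 0 = 0 := by
        unfold cnt
        apply Finset.sum_eq_zero
        intro u _
        apply Finset.sum_eq_zero
        intro v hv
        rw [if_neg]
        intro h0
        have huv : u ≠ v := (Finset.mem_Ioi.mp hv).ne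
        obtain ⟨w, _, h2⟩ := hmet.geo u v huv
        have h0' : dd (ln m r) S T (e u) (e v) = 0 := h0
        omega
      rw [this]; simp
    have heval : (wiener G).eval 1 = ((N : ℚ) * N - N) / 2 := by
      rw [hW]
      simp only [Polynomial.eval_finsetSum, Polynomial.eval_pow, Polynomial.eval_X, one_pow]
      have h1 := sum_sym (R := ℚ) (n := N) (fun _ _ => 1) (fun _ _ => rfl)
      simp only [Finset.sum_const, Finset.card_univ, Fintype.card_fin, smul_eq_mul, mul_one,
        nsmul_eq_mul] at h1 ⊢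
      linarith
    -- comparison with the target polynomial
    set Tg : ℚ[X] := C ((N : ℚ) - 1) * X * (X + C (a : ℚ)) ^ (m + 2) with hTg
    have hTg0 : Tg.coeff 0 = 0 := by
      rw [hTg, mul_assoc, Polynomial.coeff_C_mul, Polynomial.coeff_X_mul_zero, mul_zero]
    have hTgk : ∀ k, 1 ≤ k → Tg.coeff k
        = ((N : ℚ) - 1) * ((m + 2).choose (k - 1) * (a : ℚ) ^ (m + 3 - k)) := by
      intro k hk
      obtain ⟨j, rfl⟩ : ∃ j, k = j + 1 := ⟨k - 1, by omega⟩
      rw [hTg, mul_assoc, Polynomial.coeff_C_mul, Polynomial.coeff_X_mul,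
        Polynomial.coeff_X_add_C_pow]
      have e1 : m + 3 - (j + 1) = m + 2 - j := by omega
      rw [e1, Nat.add_sub_cancel]
      ring
    have hTgeval : Tg.eval 1 = ((N : ℚ) * N - N) / 2 := by
      rw [hTg]
      simp only [Polynomial.eval_mul, Polynomial.eval_C, Polynomial.eval_X, Polynomial.eval_pow,
        Polynomial.eval_add, mul_one]
      have h1 : (N : ℚ) = 2 * (1 + (a : ℚ)) ^ (m + 2) := by
        rw [hN, hQ]; push_cast; ring
      have h2 : (1 + (a : ℚ)) ^ (m + 2) = N / 2 := by rw [h1]; ring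
      rw [h2]; ring
    have hdiff : wiener G - Tg = C ((wiener G - Tg).coeff 1) * X := by
      ext k
      rw [Polynomial.coeff_C_mul, Polynomial.coeff_X]
      rcases Nat.lt_or_ge k 2 with h | h
      · interval_cases k
        · simp [hcoef0, hTg0]
        · simp
      · rw [if_neg (by omega : ¬ 1 = k), mul_zero, Polynomial.coeff_sub, hcoef2 k h,
          hTgk k (by omega), sub_self]
    have hc1 : (wiener G - Tg).coeff 1 = 0 := by
      have h1 := congrArg (Polynomial.eval 1) hdiff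
      rw [Polynomial.eval_sub, heval, hTgeval, Polynomial.eval_mul, Polynomial.eval_C,
        Polynomial.eval_X, sub_self, mul_one] at h1
      exact h1.symm
    rw [hc1, map_zero, zero_mul] at hdiff
    exact sub_eq_zero.mp hdiff

/-- For every `D` there is a connected graph of diameter at least `D` all of whose Wiener
roots are rational. -/
theorem result : ∀ D : ℕ, ∃ (n : ℕ) (G : SimpleGraph (Fin n)), G.Connected ∧ D ≤ G.diam ∧
    ∀ z : ℂ, ((wiener G).map (algebraMap ℚ ℂ)).IsRoot z → ∃ q : ℚ, z = (q : ℂ) := by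
  intro D
  obtain ⟨n, a, G, hn, hconn, hdiam, hW⟩ := main D
  refine ⟨n, G, hconn, by omega, ?_⟩
  intro z hz
  rw [hW] at hz
  simp only [Polynomial.IsRoot.def, Polynomial.map_mul, Polynomial.map_pow, Polynomial.map_add,
    Polynomial.map_X, Polynomial.map_C, Polynomial.eval_mul, Polynomial.eval_pow,
    Polynomial.eval_add, Polynomial.eval_X, Polynomial.eval_C, mul_eq_zero] at hz
  rcases hz with (h | h) | h
  · exfalso
    have h1 : ((n : ℚ) - 1) = 0 := by
      have := (map_eq_zero (algebraMap ℚ ℂ)).mp h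
      exact this
    have h2 : (2 : ℚ) ≤ n := by exact_mod_cast hn
    linarith
  · exact ⟨0, by simpa using h⟩
  · have h1 := pow_eq_zero_iff (by omega) |>.mp h
    refine ⟨-(a : ℚ), ?_⟩
    have : z = -((algebraMap ℚ ℂ) (a : ℚ)) := eq_neg_of_add_eq_zero_left h1
    rw [this]; simp

end Pool.Agent.Results.MP_96b1db_co.RationalWienerRoots
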